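import Pool.Agent.Lib.MP_f5ec7d_an.Final

/-!
# Unitary orbits and concave functions of sums, with an equality form

For every concave `f : [0, ∞) → [0, ∞)` and positive semidefinite `A`, `B` there are unitaries
`U`, `V` with `0 ≤ f(A + B) - U f(A) U* ≤ V f(B) V*`; if `f` is continuous at `0`, the middle
term is `f(X) - f(0)` for some `0 ≤ X ≤ V B V*` which commutes with `V B V*`.
-/

set_option autoImplicit false

namespace Pool.Agent.Results.MP_f5ec7d_an.EqualityForm

open Pool.Agent.Lib.F5 Matrix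
open scoped MatrixOrder ComplexOrder

/-- a nonnegative concave function on `[0, ∞)` is nondecreasing -/
theorem mono_of_concave {f : ℝ → ℝ} (hf : ConcaveOn ℝ (Set.Ici 0) f)
    (h0 : ∀ x, 0 ≤ x → 0 ≤ f x) : MonotoneOn f (Set.Ici 0) := by
  intro x hx y hy hxy
  rcases eq_or_lt_of_le hxy with h | hlt
  · rw [h]
  by_contra hcon
  push Not at hcon
  have hx0 : (0 : ℝ) ≤ x := hx
  have hy0 : 0 ≤ f y := h0 y hy
  have hfx : 0 < f x := by linarith
  -- the weight of the far point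
  set l : ℝ := (f x - f y) / (2 * f x) with hl
  have hl0 : 0 < l := div_pos (by linarith) (by linarith)
  have hl1 : l ≤ 1 := by
    rw [hl, div_le_one (by linarith)]
    linarith
  have ht : (0 : ℝ) ≤ x + (y - x) / l := by
    have : 0 ≤ (y - x) / l := div_nonneg (by linarith) hl0.le
    linarith
  have h1 := hf.2 hx (Set.mem_Ici.2 ht) (show 0 ≤ 1 - l by linarith) hl0.le (by ring)
  simp only [smul_eq_mul] at h1
  have e1 : (1 - l) * x + l * (x + (y - x) / l) = y := by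
    field_simp
    ring
  rw [e1] at h1
  have h2 : 0 ≤ l * f (x + (y - x) / l) := mul_nonneg hl0.le (h0 _ ht)
  have h3 : (1 - l) * f x = (f x + f y) / 2 := by
    have : l * f x = (f x - f y) / 2 := by
      rw [hl]
      field_simp
    linarith
  linarith

theorem cut_nice {f : ℝ → ℝ} (hf : ConcaveOn ℝ (Set.Ici 0) f) (hm : MonotoneOn f (Set.Ici 0))
    {k : ℝ} (hk : 0 < k) : Nice (fun t => min (f t - f 0) (k * t)) k where
  conc := by
    have h1 : ConcaveOn ℝ (Set.Ici 0) (fun t => f t - f 0) := by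
      refine ⟨convex_Ici 0, ?_⟩
      intro x hx y hy a b ha hb hab
      have := hf.2 hx hy ha hb hab
      simp only [smul_eq_mul] at this ⊢
      have h3 : a * (f x - f 0) + b * (f y - f 0) = a * f x + b * f y - (a + b) * f 0 := by ring
      rw [h3, hab]
      linarith
    have h2 : ConcaveOn ℝ (Set.Ici 0) (fun t : ℝ => k * t) := by
      refine ⟨convex_Ici 0, ?_⟩
      intro x _ y _ a b _ _ _
      simp only [smul_eq_mul]
      apply le_of_eq
      ring
    exact h1.inf h2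
  mono := by
    intro x hx y hy hxy
    exact min_le_min (by have := hm hx hy hxy; linarith) (mul_le_mul_of_nonneg_left hxy hk.le)
  zero := by simp
  Lpos := hk
  bound := fun t _ => min_le_right _ _

variable {n : ℕ}

theorem herm_decomp {A : Matrix (Fin n) (Fin n) ℂ} (hA : A.IsHermitian) :
    A = cj (hA.eigenvectorUnitary : Matrix (Fin n) (Fin n) ℂ) hA.eigenvalues := by
  have := hA.spectral_theorem
  rw [Unitary.conjStarAlgAut_apply] at this
  exact this

/-- functions of a diagonalised matrix do not depend on the diagonalisation -/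
theorem cj_fun_eq {E W : Matrix (Fin n) (Fin n) ℂ} (hE : E ∈ Matrix.unitaryGroup (Fin n) ℂ)
    (hW : W ∈ Matrix.unitaryGroup (Fin n) ℂ) {l x : Fin n → ℝ} (h : cj E l = cj W x)
    (f : ℝ → ℝ) : cj E (fun i => f (l i)) = cj W (fun i => f (x i)) := by
  have h1 : dg l * (Eᴴ * W) = (Eᴴ * W) * dg x := by
    calc dg l * (Eᴴ * W) = (Eᴴ * E) * dg l * (Eᴴ * W) := by rw [uu' hE, Matrix.one_mul]
      _ = Eᴴ * cj E l * W := by unfold cj; simp only [Matrix.mul_assoc]
      _ = Eᴴ * (cj W x * W) := by rw [h, Matrix.mul_assoc]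
      _ = (Eᴴ * W) * dg x := by rw [cj_col hW, Matrix.mul_assoc]
  have h2 : dg (fun i => f (l i)) * (Eᴴ * W) = (Eᴴ * W) * dg (fun i => f (x i)) := by
    ext i j
    have h3 := congrFun (congrFun h1 i) j
    unfold dg at h3 ⊢
    rw [Matrix.diagonal_mul, Matrix.mul_diagonal] at h3 ⊢
    by_cases h0 : (Eᴴ * W) i j = 0
    · rw [h0, mul_zero, zero_mul]
    · have h4 : ((l i : ℝ) : ℂ) = ((x j : ℝ) : ℂ) := by
        rw [mul_comm] at h3
        exact mul_left_cancel₀ h0 h3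
      have h5 : l i = x j := by exact_mod_cast h4
      change ((f (l i) : ℝ) : ℂ) * (Eᴴ * W) i j = (Eᴴ * W) i j * ((f (x j) : ℝ) : ℂ)
      rw [h5, mul_comm]
  calc cj E (fun i => f (l i)) = E * (dg (fun i => f (l i)) * (Eᴴ * W)) * Wᴴ := by
        unfold cj
        have : E * (dg (fun i => f (l i)) * (Eᴴ * W)) * Wᴴ =
            E * dg (fun i => f (l i)) * Eᴴ * (W * Wᴴ) := by simp only [Matrix.mul_assoc]
        rw [this, uu hW, Matrix.mul_one]
    _ = (E * Eᴴ) * (W * dg (fun i => f (x i)) * Wᴴ) := by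
        rw [h2]; simp only [Matrix.mul_assoc]
    _ = _ := by rw [uu hE, Matrix.one_mul]; rfl

/-- the functional calculus of Mathlib -/
theorem cfc_cj {W : Matrix (Fin n) (Fin n) ℂ} (hW : W ∈ Matrix.unitaryGroup (Fin n) ℂ)
    (x : Fin n → ℝ) (f : ℝ → ℝ) : cfc f (cj W x) = cj W (fun i => f (x i)) := by
  have hH : (cj W x).IsHermitian := cj_conjTranspose W x
  rw [hH.cfc_eq f, Matrix.IsHermitian.cfc, Unitary.conjStarAlgAut_apply]
  exact cj_fun_eq hH.eigenvectorUnitary.2 hW (herm_decomp hH).symm f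

theorem result (n : ℕ) (f : ℝ → ℝ) (hf : ConcaveOn ℝ (Set.Ici 0) f)
    (h0 : ∀ x, 0 ≤ x → 0 ≤ f x) (A B : Matrix (Fin n) (Fin n) ℂ) (hA : A.PosSemidef)
    (hB : B.PosSemidef) :
    ∃ U ∈ Matrix.unitaryGroup (Fin n) ℂ, ∃ V ∈ Matrix.unitaryGroup (Fin n) ℂ,
      0 ≤ cfc f (A + B) - U * cfc f A * star U ∧
      cfc f (A + B) - U * cfc f A * star U ≤ V * cfc f B * star V ∧
      (ContinuousWithinAt f (Set.Ici 0) 0 → ∃ X : Matrix (Fin n) (Fin n) ℂ,
        0 ≤ X ∧ X ≤ V * B * star V ∧ X * (V * B * star V) = (V * B * star V) * X ∧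
        cfc f (A + B) - U * cfc f A * star U = cfc f X - (f 0 : ℂ) • 1) := by
  have hm := mono_of_concave hf h0
  -- diagonalisations
  obtain ⟨EA, hEA, a, ha0, hAe⟩ : ∃ E ∈ Matrix.unitaryGroup (Fin n) ℂ, ∃ a : Fin n → ℝ,
      (∀ i, 0 ≤ a i) ∧ A = cj E a := ⟨_, hA.isHermitian.eigenvectorUnitary.2, _,
        fun i => hA.eigenvalues_nonneg i, herm_decomp hA.isHermitian⟩
  obtain ⟨EB, hEB, b, hb0, hBe⟩ : ∃ E ∈ Matrix.unitaryGroup (Fin n) ℂ, ∃ a : Fin n → ℝ,
      (∀ i, 0 ≤ a i) ∧ B = cj E a := ⟨_, hB.isHermitian.eigenvectorUnitary.2, _,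
        fun i => hB.eigenvalues_nonneg i, herm_decomp hB.isHermitian⟩
  obtain ⟨EC, hEC, c, hc0, hCe⟩ : ∃ E ∈ Matrix.unitaryGroup (Fin n) ℂ, ∃ a : Fin n → ℝ,
      (∀ i, 0 ≤ a i) ∧ A + B = cj E a := ⟨_, (hA.add hB).isHermitian.eigenvectorUnitary.2, _,
        fun i => (hA.add hB).eigenvalues_nonneg i, herm_decomp (hA.add hB).isHermitian⟩
  -- the reduced function
  have hinc : ∀ t, 0 ≤ t → 0 ≤ f t - f 0 := by
    intro t ht
    have := hm (Set.mem_Ici.2 (le_refl (0:ℝ))) (Set.mem_Ici.2 ht) ht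
    linarith
  let S : (Fin n → ℝ) → ℝ := fun v => ∑ i, (f (v i) - f 0) / v i
  have hSnn : ∀ v : Fin n → ℝ, (∀ i, 0 ≤ v i) → 0 ≤ S v := fun v hv =>
    Finset.sum_nonneg (fun i _ => div_nonneg (hinc _ (hv i)) (hv i))
  have hSle : ∀ v : Fin n → ℝ, (∀ i, 0 ≤ v i) → ∀ i, (f (v i) - f 0) / v i ≤ S v := fun v hv i =>
    Finset.single_le_sum (f := fun i => (f (v i) - f 0) / v i)
      (fun i _ => div_nonneg (hinc _ (hv i)) (hv i)) (Finset.mem_univ i)
  set k : ℝ := 1 + S a + S b + S c with hk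
  have hkpos : 0 < k := by
    have h1 := hSnn a ha0
    have h2 := hSnn b hb0
    have h3 := hSnn c hc0
    rw [hk]; linarith
  have hcut : ∀ v : Fin n → ℝ, (∀ i, 0 ≤ v i) → S v ≤ k → ∀ i,
      min (f (v i) - f 0) (k * v i) = f (v i) - f 0 := by
    intro v hv hvk i
    apply min_eq_left
    rcases eq_or_lt_of_le (hv i) with h0 | h0
    · rw [← h0]; simp
    · have h1 := (hSle v hv i).trans hvk
      rwa [div_le_iff₀ h0] at h1
  have hca : ∀ i, min (f (a i) - f 0) (k * a i) = f (a i) - f 0 :=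
    hcut a ha0 (by have h2 := hSnn b hb0; have h3 := hSnn c hc0; rw [hk]; linarith)
  have hcc : ∀ i, min (f (c i) - f 0) (k * c i) = f (c i) - f 0 :=
    hcut c hc0 (by have h2 := hSnn a ha0; have h3 := hSnn b hb0; rw [hk]; linarith)
  have hnice := cut_nice hf hm hkpos
  -- conjugate the equation `C = A + B`
  have hP : ECᴴ * EA ∈ Matrix.unitaryGroup (Fin n) ℂ :=
    mul_mem (Unitary.star_mem hEC) hEA
  have hQ : ECᴴ * EB ∈ Matrix.unitaryGroup (Fin n) ℂ :=
    mul_mem (Unitary.star_mem hEC) hEB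
  have hC : dg c = cj (ECᴴ * EA) a + cj (ECᴴ * EB) b := by
    rw [cj_mul, cj_mul, ← hAe, ← hBe, ← Matrix.add_mul, ← Matrix.mul_add]
    conv_rhs => rw [hCe]
    unfold cj
    have : ECᴴ * (EC * dg c * ECᴴ) * ECᴴᴴ = (ECᴴ * EC) * dg c * (ECᴴ * EC) := by
      rw [Matrix.conjTranspose_conjTranspose]
      simp only [Matrix.mul_assoc]
    rw [this, uu' hEC, Matrix.one_mul, Matrix.mul_one]
  obtain ⟨U, hU, W, hW, x, hx0, hxb, hK⟩ := main_K hnice hP hQ ha0 hb0 hc0 hC
  simp only [hca, hcc] at hK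
  have hone : ∀ V ∈ Matrix.unitaryGroup (Fin n) ℂ,
      cj V (fun _ => f 0) = ((f 0 : ℝ) : ℂ) • (1 : Matrix (Fin n) (Fin n) ℂ) := by
    intro V hV
    have h1 : dg (fun _ : Fin n => f 0) = ((f 0 : ℝ) : ℂ) • (1 : Matrix (Fin n) (Fin n) ℂ) := by
      unfold dg
      ext i j
      by_cases hij : i = j
      · subst hij; simp
      · simp [Matrix.diagonal_apply_ne _ hij, Matrix.one_apply_ne hij]
    unfold cj
    rw [h1, Matrix.mul_smul, Matrix.smul_mul, Matrix.mul_one, uu hV]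
  have hK' : dg (fun i => f (c i)) - cj U (fun i => f (a i)) =
      cj W (fun i => min (f (x i) - f 0) (k * x i)) := by
    have hdg1 : ∀ v : Fin n → ℝ, dg v = cj 1 v := by
      intro v; unfold cj; simp
    rw [hdg1] at hK ⊢
    rw [← cj_sub, ← cj_sub, hone U hU, hone 1 (one_mem _)] at hK
    have := sub_eq_iff_eq_add.1 hK
    rw [this]
    abel
  have hEW : EC * W ∈ Matrix.unitaryGroup (Fin n) ℂ := mul_mem hEC hW
  have hfC : cfc f (A + B) = cj EC (fun i => f (c i)) := by rw [hCe, cfc_cj hEC]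
  have hfA : cfc f A = cj EA (fun i => f (a i)) := by rw [hAe, cfc_cj hEA]
  have hfB : cfc f B = cj EB (fun i => f (b i)) := by rw [hBe, cfc_cj hEB]
  refine ⟨EC * U * EAᴴ, mul_mem (mul_mem hEC hU) (Unitary.star_mem hEA), EC * W * EBᴴ,
    mul_mem (mul_mem hEC hW) (Unitary.star_mem hEB), ?_⟩
  -- the middle term
  have e1 : cfc f (A + B) - (EC * U * EAᴴ) * cfc f A * star (EC * U * EAᴴ) =
      cj (EC * W) (fun i => min (f (x i) - f 0) (k * x i)) := by
    rw [hfC, hfA, cj_mul, ← hK']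
    show EC * dg (fun i => f (c i)) * ECᴴ - (EC * U * EAᴴ) * (EA * dg (fun i => f (a i)) * EAᴴ) *
        (EC * U * EAᴴ)ᴴ = _
    rw [Matrix.mul_sub, Matrix.sub_mul]
    congr 1
    unfold cj
    rw [Matrix.conjTranspose_mul, Matrix.conjTranspose_mul, Matrix.conjTranspose_conjTranspose]
    calc EC * U * EAᴴ * (EA * dg (fun i => f (a i)) * EAᴴ) * (EA * (Uᴴ * ECᴴ))
        = EC * U * (EAᴴ * EA) * dg (fun i => f (a i)) * (EAᴴ * EA) * (Uᴴ * ECᴴ) := by
          simp only [Matrix.mul_assoc]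
      _ = EC * (U * dg (fun i => f (a i)) * Uᴴ) * ECᴴ := by
          rw [uu' hEA, Matrix.mul_one, Matrix.mul_one]; simp only [Matrix.mul_assoc]
  have e2 : ∀ v : Fin n → ℝ, (EC * W * EBᴴ) * cj EB v * star (EC * W * EBᴴ) =
      cj (EC * W) v := by
    intro v
    show (EC * W * EBᴴ) * (EB * dg v * EBᴴ) * (EC * W * EBᴴ)ᴴ = _
    unfold cj
    rw [Matrix.conjTranspose_mul (EC * W) EBᴴ, Matrix.conjTranspose_conjTranspose]
    calc EC * W * EBᴴ * (EB * dg v * EBᴴ) * (EB * (EC * W)ᴴ)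
        = EC * W * (EBᴴ * EB) * dg v * (EBᴴ * EB) * (EC * W)ᴴ := by
          simp only [Matrix.mul_assoc]
      _ = EC * W * dg v * (EC * W)ᴴ := by
          rw [uu' hEB, Matrix.mul_one, Matrix.mul_one]
  have hx_nn : ∀ i, 0 ≤ min (f (x i) - f 0) (k * x i) := fun i =>
    le_min (hinc _ (hx0 i)) (mul_nonneg hkpos.le (hx0 i))
  refine ⟨?_, ?_, ?_⟩
  · rw [Matrix.nonneg_iff_posSemidef, e1]
    exact cj_psd hx_nn
  · rw [Matrix.le_iff, e1, hfB, e2, cj_sub]
    apply cj_psd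
    intro i
    have h1 : min (f (x i) - f 0) (k * x i) ≤ f (x i) - f 0 := min_le_left _ _
    have h2 : f (x i) ≤ f (b i) :=
      hm (Set.mem_Ici.2 (hx0 i)) (Set.mem_Ici.2 ((hx0 i).trans (hxb i))) (hxb i)
    have h3 := h0 0 le_rfl
    linarith
  · intro hcont
    -- `f` is continuous on `[0, ∞)`
    have hcon : ContinuousOn f (Set.Ici 0) := by
      intro t ht
      rcases eq_or_lt_of_le (show (0 : ℝ) ≤ t from ht) with h1 | h1
      · rw [← h1]; exact hcont
      · have h2 : ContinuousOn f (interior (Set.Ici (0 : ℝ))) := hf.continuousOn_interior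
        rw [interior_Ici] at h2
        exact (h2.continuousAt (Ioi_mem_nhds h1)).continuousWithinAt
    have hex : ∀ i, ∃ t, 0 ≤ t ∧ t ≤ x i ∧ f t = min (f (x i) - f 0) (k * x i) + f 0 := by
      intro i
      have h1 : ContinuousOn f (Set.Icc 0 (x i)) := hcon.mono Set.Icc_subset_Ici_self
      have h2 := intermediate_value_Icc (hx0 i) h1
      have h3 : min (f (x i) - f 0) (k * x i) + f 0 ∈ Set.Icc (f 0) (f (x i)) := by
        constructor
        · linarith [hx_nn i]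
        · linarith [min_le_left (f (x i) - f 0) (k * x i)]
      obtain ⟨t, ht, hft⟩ := h2 h3
      exact ⟨t, ht.1, ht.2, hft⟩
    choose t ht0 htx hft using hex
    refine ⟨cj (EC * W) t, ?_, ?_, ?_, ?_⟩
    · rw [Matrix.nonneg_iff_posSemidef]
      exact cj_psd ht0
    · rw [Matrix.le_iff]
      conv => rw [hBe]
      rw [e2, cj_sub]
      apply cj_psd
      intro i
      linarith [htx i, hxb i]
    · conv => rw [hBe]
      rw [e2, cj_mul_cj hEW, cj_mul_cj hEW]
      congr 1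
      funext i
      ring
    · rw [e1, cfc_cj hEW, ← hone (EC * W) hEW, cj_sub]
      congr 1
      funext i
      rw [hft i]
      ring

end Pool.Agent.Results.MP_f5ec7d_an.EqualityForm
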